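import Pool.Agent.H73.P2.Step

/-!
Propagation of a filtration of a quantum torus along a path of stability conditions on which the
rank is a positive additive function: no local finiteness of walls is needed.
-/

set_option autoImplicit false

namespace Pool.Agent.H73.WC

open Pool.Agent.H73.P2

variable {Γ K : Type*} [AddCommGroup Γ] [Field K] [Algebra ℂ K] [CharZero K]

/-- the part of slope `μ` of a function on classes -/
noncomputable def part (sl : Γ → ℝ) (μ : ℝ) (f : Γ → K) (a : Γ) : K :=
  open Classical in if sl a = μ then f a else 0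

omit [AddCommGroup Γ] [Algebra ℂ K] [CharZero K] in
lemma part_ne {sl : Γ → ℝ} {μ : ℝ} {f : Γ → K} {a : Γ} (h : part sl μ f a ≠ 0) :
    sl a = μ ∧ f a ≠ 0 := by
  unfold part at h
  by_cases h1 : sl a = μ
  · rw [if_pos h1] at h; exact ⟨h1, h⟩
  · rw [if_neg h1] at h; exact absurd rfl h

omit [AddCommGroup Γ] [Algebra ℂ K] [CharZero K] in
lemma part_of_eq {sl : Γ → ℝ} {μ : ℝ} (f : Γ → K) {a : Γ} (h : sl a = μ) :
    part sl μ f a = f a := by
  unfold part; rw [if_pos h]

/-- Induction on the rank. `inc s a`, `out s a` are the coefficients of the class `a` just before and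
just after the parameter `s`, `0 < s < 1`. -/
theorem all_mem {t : K} (ht : t ≠ 0) (B : Γ →+ Γ →+ ℤ) (alt : ∀ a, B a a = 0) (rk : Γ →+ ℤ)
    (sl ν : ℝ → Γ → ℝ) {inc out : ℝ → Γ → K}
    (support : ∀ s a, 0 < s → s < 1 → (inc s a ≠ 0 ∨ out s a ≠ 0) → 0 < rk a)
    (propagation : ∀ s a, 0 < s → s < 1 → ∃ ε > 0,
      (∀ s', s < s' → s' < s + ε → s' < 1 → inc s' a = out s a ∧ out s' a = out s a) ∧
      (∀ s', s - ε < s' → s' < s → 0 < s' → inc s' a = inc s a ∧ out s' a = inc s a))
    (crossing : ∀ s μ, 0 < s → s < 1 → ∀ g,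
      ordP t (fun a b => B a b) 1 (part (sl s) μ (inc s)) g =
        ordP t (fun a b => B a b) (-1) (part (sl s) μ (out s)) g)
    (order : ∀ s a b, 0 < s → s < 1 → (inc s a ≠ 0 ∨ out s a ≠ 0) → (inc s b ≠ 0 ∨ out s b ≠ 0) →
      sl s a = sl s b → ν s b ≤ ν s a → 0 ≤ B a b)
    (degree : ∀ s μ, 0 < s → s < 1 → ∃ deg : Γ →+ ℝ,
      (∀ a, sl s a = μ → (inc s a ≠ 0 ∨ out s a ≠ 0) → 0 < deg a) ∧
      ∀ D : ℝ, {a | sl s a = μ ∧ deg a ≤ D ∧ (inc s a ≠ 0 ∨ out s a ≠ 0)}.Finite)
    {M : Γ → Submodule ℂ K}
    (hM : ∀ a b, 0 < rk a → 0 < rk b →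
      ∀ c ∈ M a, ∀ c' ∈ M b, c * c' * (t ^ (B a b) - t ^ (-B a b)) ∈ M (a + b))
    (base : ∀ a, ∃ δ > 0, ∀ s, 0 < s → s < 1 → s < δ → inc s a ∈ M a ∧ out s a ∈ M a) :
    ∀ s a, 0 < s → s < 1 → inc s a ∈ M a ∧ out s a ∈ M a := by
  classical
  -- strong induction on the rank
  have key : ∀ n : ℕ, ∀ a, rk a = n → ∀ s, 0 < s → s < 1 → inc s a ∈ M a ∧ out s a ∈ M a := by
    intro n
    induction n using Nat.strong_induction_on with
    | _ n ih =>
      intro a0 ha0
      by_contra hcon
      push Not at hcon
      let Bad : Set ℝ := {s | 0 < s ∧ s < 1 ∧ ¬ (inc s a0 ∈ M a0 ∧ out s a0 ∈ M a0)}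
      have hne : Bad.Nonempty := by
        obtain ⟨s, h1, h2, h3⟩ := hcon
        exact ⟨s, h1, h2, fun h => h3 h.1 h.2⟩
      obtain ⟨δ, hδ, hbase⟩ := base a0
      have hlow : ∀ s ∈ Bad, δ ≤ s := by
        rintro s ⟨h1, h2, h3⟩
        by_contra hc
        push Not at hc
        exact h3 (hbase s h1 h2 hc)
      have hbdd : BddBelow Bad := ⟨δ, hlow⟩
      set s0 := sInf Bad with hs0
      have hs0pos : 0 < s0 := lt_of_lt_of_le hδ (le_csInf hne hlow)
      have hs0lt : s0 < 1 := by
        obtain ⟨s, hs⟩ := hne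
        exact lt_of_le_of_lt (csInf_le hbdd hs) hs.2.1
      have hgood : ∀ s, 0 < s → s < s0 → inc s a0 ∈ M a0 ∧ out s a0 ∈ M a0 := by
        intro s h1 h2
        by_contra h3
        have : s ∈ Bad := ⟨h1, h2.trans hs0lt, h3⟩
        exact absurd (csInf_le hbdd this) (not_le.2 h2)
      obtain ⟨ε, hε, hright, hleft⟩ := propagation s0 a0 hs0pos hs0lt
      -- the incoming coefficient at `s0`
      have hinc : inc s0 a0 ∈ M a0 := by
        obtain ⟨s, hs1, hs2⟩ := exists_between (max_lt hs0pos (sub_lt_self s0 hε))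
        have h1 := hleft s ((le_max_right _ _).trans_lt hs1) hs2 ((le_max_left _ _).trans_lt hs1)
        rw [← h1.1]
        exact (hgood s ((le_max_left _ _).trans_lt hs1) hs2).1
      -- the outgoing coefficient at `s0`
      have hout : out s0 a0 ∈ M a0 := by
        obtain ⟨deg, hdpos, hdfin⟩ := degree s0 (sl s0 a0) hs0pos hs0lt
        let M' : Γ → Submodule ℂ K := fun a =>
          if rk a ≤ 0 then ⊥ else if rk a < n ∨ a = a0 then M a else ⊤
        have hM' : ∀ a b, ∀ c ∈ M' a, ∀ c' ∈ M' b,
            c * c' * (t ^ (B a b) - t ^ (-B a b)) ∈ M' (a + b) := by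
          intro a b c hc c' hc'
          by_cases ha : rk a ≤ 0
          · simp only [M', if_pos ha, Submodule.mem_bot] at hc
            rw [hc, zero_mul, zero_mul]
            exact Submodule.zero_mem _
          by_cases hb : rk b ≤ 0
          · simp only [M', if_pos hb, Submodule.mem_bot] at hc'
            rw [hc', mul_zero, zero_mul]
            exact Submodule.zero_mem _
          push Not at ha hb
          have hab : ¬ rk (a + b) ≤ 0 := by rw [map_add]; omega
          simp only [M', if_neg hab]
          by_cases h : rk (a + b) < n ∨ a + b = a0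
          · rw [if_pos h]
            have hle : rk a + rk b ≤ n := by
              rcases h with h | h
              · rw [map_add] at h; exact h.le
              · rw [← map_add, h, ha0]
            have h1 : rk a < n ∨ a = a0 := Or.inl (by omega)
            have h2 : rk b < n ∨ b = a0 := Or.inl (by omega)
            simp only [M', if_neg (not_le.2 ha), if_pos h1] at hc
            simp only [M', if_neg (not_le.2 hb), if_pos h2] at hc'
            exact hM a b ha hb c hc c' hc'
          · rw [if_neg h]
            exact Submodule.mem_top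
        have hres : ∀ f : Γ → K, ∀ a, part (sl s0) (sl s0 a0) f a ≠ 0 → sl s0 a = sl s0 a0 ∧ f a ≠ 0 :=
          fun f a h => part_ne h
        have hstep := local_step ht B alt deg (ν s0) (fi := part (sl s0) (sl s0 a0) (inc s0))
          (fo := part (sl s0) (sl s0 a0) (out s0)) (M := M') (D := deg a0)
          (fun a ha => hdpos a (hres _ a ha).1 (Or.inl (hres _ a ha).2))
          (fun a ha => hdpos a (hres _ a ha).1 (Or.inr (hres _ a ha).2))
          ((hdfin (deg a0)).subset (by
            rintro a ⟨h1, h2 | h2⟩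
            · exact ⟨(hres _ a h2).1, h1, Or.inl (hres _ a h2).2⟩
            · exact ⟨(hres _ a h2).1, h1, Or.inr (hres _ a h2).2⟩))
          (by
            intro a b ha hb hab
            have ha' : sl s0 a = sl s0 a0 ∧ (inc s0 a ≠ 0 ∨ out s0 a ≠ 0) := by
              rcases ha with h | h
              · exact ⟨(hres _ a h).1, Or.inl (hres _ a h).2⟩
              · exact ⟨(hres _ a h).1, Or.inr (hres _ a h).2⟩
            have hb' : sl s0 b = sl s0 a0 ∧ (inc s0 b ≠ 0 ∨ out s0 b ≠ 0) := by
              rcases hb with h | h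
              · exact ⟨(hres _ b h).1, Or.inl (hres _ b h).2⟩
              · exact ⟨(hres _ b h).1, Or.inr (hres _ b h).2⟩
            exact order s0 a b hs0pos hs0lt ha'.2 hb'.2 (ha'.1.trans hb'.1.symm) hab)
          (crossing s0 (sl s0 a0) hs0pos hs0lt) hM'
          (by
            intro a _
            by_cases hz : part (sl s0) (sl s0 a0) (inc s0) a = 0
            · rw [hz]; exact Submodule.zero_mem _
            have h1 := hres _ a hz
            have hrk := support s0 a hs0pos hs0lt (Or.inl h1.2)
            rw [part_of_eq _ h1.1]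
            simp only [M', if_neg (not_le.2 hrk)]
            by_cases h : rk a < n ∨ a = a0
            · rw [if_pos h]
              rcases h with h | h
              · obtain ⟨m, hm⟩ := Int.eq_ofNat_of_zero_le hrk.le
                exact (ih m (by omega) a (by exact_mod_cast hm) s0 hs0pos hs0lt).1
              · rw [h]; exact hinc
            · rw [if_neg h]
              exact Submodule.mem_top)
        have h2 := hstep a0 le_rfl
        rw [part_of_eq _ rfl] at h2
        by_cases hrk : rk a0 ≤ 0
        · simp only [M', if_pos hrk, Submodule.mem_bot] at h2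
          rw [h2]
          exact Submodule.zero_mem _
        · have h3 : rk a0 < n ∨ a0 = a0 := Or.inr rfl
          have e : M' a0 = M a0 := by
            change (if rk a0 ≤ 0 then ⊥ else if rk a0 < n ∨ a0 = a0 then M a0 else ⊤) = M a0
            rw [if_neg hrk, if_pos h3]
          rw [e] at h2
          exact h2
      -- no bad parameter in `[s0, s0 + ε)`
      have hlow' : ∀ s ∈ Bad, s0 + ε ≤ s := by
        rintro s ⟨h1, h2, h3⟩
        by_contra hc
        push Not at hc
        rcases lt_trichotomy s s0 with h | h | h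
        · exact h3 (hgood s h1 h)
        · rw [h] at h3; exact h3 ⟨hinc, hout⟩
        · have h4 := hright s h hc h2
          rw [h4.1, h4.2] at h3
          exact h3 ⟨hout, hout⟩
      have := le_csInf hne hlow'
      rw [← hs0] at this
      linarith
  intro s a h1 h2
  by_cases hrk : 0 < rk a
  · obtain ⟨m, hm⟩ := Int.eq_ofNat_of_zero_le hrk.le
    exact key m a (by exact_mod_cast hm) s h1 h2
  · have h3 : inc s a = 0 ∧ out s a = 0 := by
      by_contra h
      rw [not_and_or] at h
      exact hrk (support s a h1 h2 h)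
    rw [h3.1, h3.2]
    exact ⟨Submodule.zero_mem _, Submodule.zero_mem _⟩

end Pool.Agent.H73.WC
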