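import Mathlib

/-!
Finiteness from the Hodge index theorem for a form of signature `(1, n)`.
-/

set_option autoImplicit false

open Finset

namespace Pool.Agent.H73.WC

/-- Hodge index, with a quantitative form: `u = j v - d w`. -/
lemma hodge_identity {n : ℕ} (d j : ℝ) (v w : Fin n → ℝ) :
    j ^ 2 * ((d * j - ∑ i, v i * w i) ^ 2 - (j ^ 2 - ∑ i, w i ^ 2) * (d ^ 2 - ∑ i, v i ^ 2)) =
      (∑ i, (j * v i - d * w i) * w i) ^ 2 +
        (j ^ 2 - ∑ i, w i ^ 2) * ∑ i, (j * v i - d * w i) ^ 2 := by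
  have e1 : ∑ i, (j * v i - d * w i) * w i = j * ∑ i, v i * w i - d * ∑ i, w i ^ 2 := by
    rw [mul_sum, mul_sum, ← sum_sub_distrib]
    exact sum_congr rfl fun i _ => by ring
  have e2 : ∑ i, (j * v i - d * w i) ^ 2 =
      j ^ 2 * ∑ i, v i ^ 2 - 2 * j * d * ∑ i, v i * w i + d ^ 2 * ∑ i, w i ^ 2 := by
    rw [mul_sum, mul_sum, mul_sum, ← sum_sub_distrib, ← sum_add_distrib]
    exact sum_congr rfl fun i _ => by ring
  rw [e1, e2]
  ring

/-- Hodge index theorem. -/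
lemma hodge {n : ℕ} {j : ℝ} {w : Fin n → ℝ} (hJ : ∑ i, w i ^ 2 < j ^ 2) (d : ℝ) (v : Fin n → ℝ) :
    (j ^ 2 - ∑ i, w i ^ 2) * (d ^ 2 - ∑ i, v i ^ 2) ≤ (d * j - ∑ i, v i * w i) ^ 2 := by
  have h := hodge_identity d j v w
  have hw : 0 ≤ ∑ i, w i ^ 2 := sum_nonneg fun i _ => sq_nonneg _
  have hj : 0 < j ^ 2 := lt_of_le_of_lt hw hJ
  have hu : 0 ≤ ∑ i, (j * v i - d * w i) ^ 2 := sum_nonneg fun i _ => sq_nonneg _
  have h1 : 0 ≤ j ^ 2 * ((d * j - ∑ i, v i * w i) ^ 2 -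
      (j ^ 2 - ∑ i, w i ^ 2) * (d ^ 2 - ∑ i, v i ^ 2)) := by
    rw [h]
    have := mul_nonneg (sub_nonneg.2 hJ.le) hu
    positivity
  have := nonneg_of_mul_nonneg_right h1 hj
  linarith

/-- Vectors with bounded intersection with `(j, w)` and square bounded below are bounded. -/
lemma exists_bound {n : ℕ} (j : ℝ) (w : Fin n → ℝ) (hJ : ∑ i, w i ^ 2 < j ^ 2) (c N : ℝ) :
    ∃ R : ℝ, ∀ (d : ℝ) (v : Fin n → ℝ), |d * j - ∑ i, v i * w i| ≤ c →
      -N ≤ d ^ 2 - ∑ i, v i ^ 2 → |d| ≤ R ∧ ∀ i, |v i| ≤ R := by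
  have hw : 0 ≤ ∑ i, w i ^ 2 := sum_nonneg fun i _ => sq_nonneg _
  have hj : 0 < j ^ 2 := lt_of_le_of_lt hw hJ
  have hj0 : j ≠ 0 := by rintro rfl; simp at hj
  set J := j ^ 2 - ∑ i, w i ^ 2 with hJdef
  have hJpos : 0 < J := sub_pos.2 hJ
  set U := j ^ 2 * (c ^ 2 + J * N) / J with hU
  set W := ∑ i, |w i| with hW
  have hW0 : 0 ≤ W := sum_nonneg fun i _ => abs_nonneg _
  set R1 := (|j| * c + √U * W) / J with hR1
  refine ⟨max R1 ((√U + R1 * W) / |j|), ?_⟩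
  intro d v h1 h2
  have hc : 0 ≤ c := (abs_nonneg _).trans h1
  have hid := hodge_identity d j v w
  rw [← hJdef] at hid
  have husum : ∑ i, (j * v i - d * w i) ^ 2 ≤ U := by
    rw [hU, le_div_iff₀ hJpos]
    have h3 : (d * j - ∑ i, v i * w i) ^ 2 ≤ c ^ 2 := by
      rw [← sq_abs]
      exact pow_le_pow_left₀ (abs_nonneg _) h1 2
    have h4 : J * (d ^ 2 - ∑ i, v i ^ 2) ≥ -(J * N) := by
      have := mul_le_mul_of_nonneg_left h2 hJpos.le
      linarith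
    have h5 : j ^ 2 * ((d * j - ∑ i, v i * w i) ^ 2 - J * (d ^ 2 - ∑ i, v i ^ 2)) ≤
        j ^ 2 * (c ^ 2 + J * N) := by
      apply mul_le_mul_of_nonneg_left _ hj.le
      linarith
    have h6 := sq_nonneg (∑ i, (j * v i - d * w i) * w i)
    linarith
  have hu : ∀ i, |j * v i - d * w i| ≤ √U := by
    intro i
    apply Real.abs_le_sqrt
    exact (single_le_sum (f := fun i => (j * v i - d * w i) ^ 2) (fun i _ => sq_nonneg _)
      (mem_univ i)).trans husum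
  have hdJ : d * J = j * (d * j - ∑ i, v i * w i) + ∑ i, (j * v i - d * w i) * w i := by
    have e1 : ∑ i, (j * v i - d * w i) * w i = j * ∑ i, v i * w i - d * ∑ i, w i ^ 2 := by
      rw [mul_sum, mul_sum, ← sum_sub_distrib]
      exact sum_congr rfl fun i _ => by ring
    rw [e1, hJdef]
    ring
  have huw : |∑ i, (j * v i - d * w i) * w i| ≤ √U * W := by
    refine (abs_sum_le_sum_abs _ _).trans ?_
    rw [hW, mul_sum]
    refine sum_le_sum fun i _ => ?_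
    rw [abs_mul]
    exact mul_le_mul_of_nonneg_right (hu i) (abs_nonneg _)
  have hd : |d| ≤ R1 := by
    rw [hR1, le_div_iff₀ hJpos]
    calc |d| * J = |d * J| := by rw [abs_mul, abs_of_pos hJpos]
      _ ≤ |j * (d * j - ∑ i, v i * w i)| + |∑ i, (j * v i - d * w i) * w i| := by
          rw [hdJ]; exact abs_add_le _ _
      _ ≤ |j| * c + √U * W := by
          rw [abs_mul]
          exact add_le_add (mul_le_mul_of_nonneg_left h1 (abs_nonneg _)) huw
  refine ⟨hd.trans (le_max_left _ _), fun i => ?_⟩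
  refine le_trans ?_ (le_max_right _ _)
  rw [le_div_iff₀ (abs_pos.2 hj0), ← abs_mul]
  have e : v i * j = (j * v i - d * w i) + d * w i := by ring
  rw [e]
  refine (abs_add_le _ _).trans (add_le_add (hu i) ?_)
  rw [abs_mul]
  have hwi : |w i| ≤ W := single_le_sum (f := fun i => |w i|) (fun i _ => abs_nonneg _) (mem_univ i)
  exact mul_le_mul hd hwi (abs_nonneg _) ((abs_nonneg d).trans hd)

/-- finiteness of the integral vectors of `exists_bound` -/
lemma finite_vectors {n : ℕ} (j : ℝ) (w : Fin n → ℝ) (hJ : ∑ i, w i ^ 2 < j ^ 2) (c N : ℝ) :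
    {D : Fin (n + 1) → ℤ | |(D 0 : ℝ) * j - ∑ i : Fin n, (D i.succ : ℝ) * w i| ≤ c ∧
      -N ≤ (D 0 : ℝ) ^ 2 - ∑ i : Fin n, (D i.succ : ℝ) ^ 2}.Finite := by
  obtain ⟨R, hR⟩ := exists_bound j w hJ c N
  refine (Set.finite_Icc (fun _ : Fin (n + 1) => -⌈R⌉) (fun _ => ⌈R⌉)).subset ?_
  rintro D ⟨h1, h2⟩
  obtain ⟨h3, h4⟩ := hR (D 0) (fun i => D i.succ) h1 h2
  have h5 : ∀ i, |(D i : ℝ)| ≤ R := by
    intro i
    refine Fin.cases h3 (fun i => h4 i) i
  rw [Set.mem_Icc, Pi.le_def, Pi.le_def]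
  constructor
  · intro i
    have h6 := (abs_le.1 ((h5 i).trans (Int.le_ceil R))).1
    exact_mod_cast h6
  · intro i
    have h6 := (abs_le.1 ((h5 i).trans (Int.le_ceil R))).2
    exact_mod_cast h6

end Pool.Agent.H73.WC
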