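import Mathlib

/-!
Divisibility by `1 + q + … + q^(w-1)` from the vanishing at roots of unity.
-/

set_option autoImplicit false

open Polynomial

namespace Pool.Agent.H73.WC

/-- divisibility is vanishing at the roots of unity -/
lemma dvd_of_eval {w : ℕ} (hw : 0 < w) {P : ℂ[X]}
    (h : ∀ ζ : ℂ, ζ ^ w = 1 → ζ ≠ 1 → P.eval ζ = 0) :
    (∑ i ∈ Finset.range w, X ^ i) ∣ P := by
  by_cases hP0 : P = 0
  · rw [hP0]; exact dvd_zero _
  set S : ℂ[X] := ∑ i ∈ Finset.range w, X ^ i with hS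
  have hgeom : (X - 1 : ℂ[X]) * S = X ^ w - 1 := mul_geom_sum X w
  have hsep : (X ^ w - 1 : ℂ[X]).Separable := by
    refine separable_X_pow_sub_C 1 ?_ one_ne_zero
    exact_mod_cast hw.ne'
  have hne : (X ^ w - 1 : ℂ[X]) ≠ 0 := X_pow_sub_C_ne_zero hw 1
  have hS0 : S ≠ 0 := by
    intro h0
    rw [h0, mul_zero] at hgeom
    exact hne hgeom.symm
  refine (IsAlgClosed.splits S).dvd_of_roots_le_roots hS0 ?_
  have hsepS : S.Separable := by
    rw [← hgeom] at hsep
    exact hsep.of_mul_right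
  rw [Multiset.le_iff_subset (nodup_roots hsepS)]
  intro ζ hζ
  rw [mem_roots hS0] at hζ
  rw [mem_roots hP0]
  have e1 : ζ ^ w = 1 := by
    have := congrArg (eval ζ) hgeom
    rw [eval_mul, hζ.eq_zero, mul_zero] at this
    simp only [eval_sub, eval_pow, eval_X, eval_one] at this
    exact (sub_eq_zero.1 this.symm)
  refine h ζ e1 ?_
  rintro rfl
  have h3 : S.eval 1 = w := by
    rw [hS, eval_finsetSum]
    simp
  rw [hζ.eq_zero] at h3
  have : (w : ℂ) ≠ 0 := by exact_mod_cast hw.ne'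
  exact this h3.symm

/-- the same over the integers -/
lemma int_dvd_of_eval {w : ℕ} (hw : 0 < w) {P : ℤ[X]}
    (h : ∀ ζ : ℂ, ζ ^ w = 1 → ζ ≠ 1 → (P.map (Int.castRingHom ℂ)).eval ζ = 0) :
    (∑ i ∈ Finset.range w, X ^ i) ∣ P := by
  have hmon : (X ^ w - 1 : ℤ[X]).Monic := monic_X_pow_sub_C 1 hw.ne'
  have hmon2 : (X - 1 : ℤ[X]).Monic := monic_X_sub_C 1
  have hsm : (∑ i ∈ Finset.range w, X ^ i : ℤ[X]).Monic := by
    refine Monic.of_mul_monic_left hmon2 ?_
    rw [mul_geom_sum]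
    exact hmon
  rw [← map_dvd_map (Int.castRingHom ℂ) Int.cast_injective hsm]
  have hmap : (∑ i ∈ Finset.range w, X ^ i : ℤ[X]).map (Int.castRingHom ℂ) =
      ∑ i ∈ Finset.range w, X ^ i := by
    rw [Polynomial.map_sum]
    simp
  rw [hmap]
  exact dvd_of_eval hw h

/-- a polynomial satisfying Poincaré duality in odd degree vanishes at `-1` -/
lemma eval_neg_one {n : ℕ} (hn : Odd n) {P : ℤ[X]} (hdeg : P.natDegree ≤ n)
    (hpal : ∀ i ≤ n, P.coeff i = P.coeff (n - i)) :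
    (P.map (Int.castRingHom ℂ)).eval (-1) = 0 := by
  have h0 : P.eval (-1) = 0 := by
    have e1 : P.eval (-1) = ∑ i ∈ Finset.range (n + 1), P.coeff i * (-1) ^ i := by
      rw [eval_eq_sum_range' (show P.natDegree < n + 1 by omega)]
    have e2 : ∑ i ∈ Finset.range (n + 1), P.coeff i * (-1) ^ i =
        ∑ i ∈ Finset.range (n + 1), P.coeff (n - i) * (-1) ^ (n - i) := by
      rw [Finset.sum_range_reflect (fun i => P.coeff i * (-1) ^ i) (n + 1) |>.symm]
      refine Finset.sum_congr rfl fun i _ => ?_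
      simp only [Nat.add_sub_cancel]
    have e3 : ∑ i ∈ Finset.range (n + 1), P.coeff (n - i) * (-1) ^ (n - i) =
        -∑ i ∈ Finset.range (n + 1), P.coeff i * (-1) ^ i := by
      rw [← Finset.sum_neg_distrib]
      refine Finset.sum_congr rfl fun i hi => ?_
      rw [Finset.mem_range] at hi
      rw [← hpal i (by omega)]
      have h4 : (-1 : ℤ) ^ (n - i) = -(-1) ^ i := by
        have h5 : (-1 : ℤ) ^ (n - i) * (-1) ^ i = -1 := by
          rw [← pow_add, Nat.sub_add_cancel (by omega)]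
          exact hn.neg_one_pow
        have h6 : ((-1 : ℤ) ^ i) * (-1) ^ i = 1 := by
          rw [← mul_pow]; simp
        calc (-1 : ℤ) ^ (n - i) = (-1 : ℤ) ^ (n - i) * ((-1) ^ i * (-1) ^ i) := by rw [h6, mul_one]
          _ = ((-1 : ℤ) ^ (n - i) * (-1) ^ i) * (-1) ^ i := by ring
          _ = -(-1) ^ i := by rw [h5]; ring
      rw [h4]
      ring
    linarith [e1.trans (e2.trans e3)]
  have h1 : (P.map (Int.castRingHom ℂ)).eval (-1) = ((P.eval (-1) : ℤ) : ℂ) := by
    have := eval_map (Int.castRingHom ℂ) (-1 : ℂ) (p := P)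
    rw [this]
    have h2 := hom_eval₂ P (RingHom.id ℤ) (Int.castRingHom ℂ) (-1)
    simp at h2
    rw [← h2]
  rw [h1, h0]
  simp

end Pool.Agent.H73.WC
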