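import Pool.Agent.H73.WC.Deg

/-!
Classes of sheaves on the blow-up of the plane in nine points, and the degree attached to a
polarisation and a slope.
-/

set_option autoImplicit false

open Finset

namespace Pool.Agent.H73.WC

/-- Divisor classes `D 0 · H - ∑ D i · e_i` on the blow-up of `ℙ²` in nine points. -/
abbrev Pic : Type := Fin 10 → ℤ

/-- The intersection form. -/
def dot (D E : Pic) : ℤ := D 0 * E 0 - ∑ i : Fin 9, D i.succ * E i.succ

/-- The anticanonical class `F = 3 H - e_1 - ... - e_9`, the class of a fibre. -/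
def fib : Pic := fun i => if i = 0 then 3 else 1

/-- Classes `(r, D, χ)`: rank, first Chern class, Euler characteristic. -/
abbrev Cl : Type := ℤ × Pic × ℤ

/-- The discriminant `D² - 2 r ch₂`, where `2 ch₂ = 2 χ - 2 r - D·F`. -/
def disc (a : Cl) : ℤ := dot a.2.1 a.2.1 - a.1 * (2 * a.2.2 - 2 * a.1 - dot a.2.1 fib)

lemma dot_add_left (D D' E : Pic) : dot (D + D') E = dot D E + dot D' E := by
  unfold dot
  simp only [Pi.add_apply, add_mul, sum_add_distrib]
  ring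

lemma dot_comm (D E : Pic) : dot D E = dot E D := by
  unfold dot
  simp only [mul_comm]

lemma dot_add_right (D E E' : Pic) : dot D (E + E') = dot D E + dot D E' := by
  rw [dot_comm, dot_add_left, dot_comm E, dot_comm E']

/-- The polarisation `(1 - s) f + s F` evaluated on a divisor class. -/
noncomputable def pol (f : Pic) (s : ℝ) (D : Pic) : ℝ := (1 - s) * dot D f + s * dot D fib

/-- The slope with respect to `(1 - s) f + s F`. -/
noncomputable def slope (f : Pic) (s : ℝ) (a : Cl) : ℝ := pol f s a.2.1 / a.1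

/-- The degree used for the classes of slope `μ` at the parameter `s`. -/
noncomputable def degHom (f : Pic) (s μ : ℝ) : Cl →+ ℝ :=
  AddMonoidHom.mk' (fun a => (4 + μ ^ 2 / (2 * s * (1 - s) * dot f fib)) * a.1 + dot a.2.1 fib -
    2 * a.2.2) (by
      intro a b
      simp only [Prod.fst_add, Prod.snd_add, dot_add_left]
      push_cast
      ring)

lemma degHom_apply (f : Pic) (s μ : ℝ) (a : Cl) : degHom f s μ a =
    (4 + μ ^ 2 / (2 * s * (1 - s) * dot f fib)) * a.1 + dot a.2.1 fib - 2 * a.2.2 := rfl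

/-- the real vector `(1 - s) f + s F` -/
noncomputable def polv (f : Pic) (s : ℝ) (i : Fin 10) : ℝ := (1 - s) * f i + s * fib i

lemma pol_eq (f : Pic) (s : ℝ) (D : Pic) :
    pol f s D = (D 0 : ℝ) * polv f s 0 - ∑ i : Fin 9, (D i.succ : ℝ) * polv f s i.succ := by
  unfold pol dot polv
  push_cast
  have e : ∑ i : Fin 9, (D i.succ : ℝ) * ((1 - s) * f i.succ + s * fib i.succ) =
      (1 - s) * ∑ i : Fin 9, (D i.succ : ℝ) * f i.succ + s * ∑ i : Fin 9, (D i.succ : ℝ) * fib i.succ := by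
    rw [mul_sum, mul_sum, ← sum_add_distrib]
    exact sum_congr rfl fun i _ => by ring
  rw [e]
  ring

lemma fib_sq : dot fib fib = 0 := by decide

lemma polv_sq (f : Pic) (hf : dot f f = 0) (s : ℝ) :
    polv f s 0 ^ 2 - ∑ i : Fin 9, polv f s i.succ ^ 2 = 2 * s * (1 - s) * dot f fib := by
  have h1 : (dot f f : ℝ) = 0 := by exact_mod_cast hf
  have h2 : (dot fib fib : ℝ) = 0 := by exact_mod_cast fib_sq
  unfold dot at h1 h2 ⊢
  unfold polv
  push_cast at h1 h2 ⊢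
  have e : ∑ i : Fin 9, ((1 - s) * (f i.succ : ℝ) + s * fib i.succ) ^ 2 =
      (1 - s) ^ 2 * ∑ i : Fin 9, (f i.succ : ℝ) * f i.succ +
        2 * s * (1 - s) * ∑ i : Fin 9, (f i.succ : ℝ) * fib i.succ +
          s ^ 2 * ∑ i : Fin 9, (fib i.succ : ℝ) * fib i.succ := by
    rw [mul_sum, mul_sum, mul_sum, ← sum_add_distrib, ← sum_add_distrib]
    exact sum_congr rfl fun i _ => by ring
  rw [e]
  linear_combination (1 - s) ^ 2 * h1 + s ^ 2 * h2

/-- real form of the square -/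
lemma sq_eq (D : Pic) : (dot D D : ℝ) = (D 0 : ℝ) ^ 2 - ∑ i : Fin 9, (D i.succ : ℝ) ^ 2 := by
  unfold dot
  push_cast
  simp only [sq]

/-- bounds from Bogomolov's inequality and the Hodge index theorem -/
lemma degree_bounds {f : Pic} (hf : dot f f = 0) (hfF : 0 < dot f fib) {s μ : ℝ} (hs0 : 0 < s)
    (hs1 : s < 1) {a : Cl} (hr : 0 < a.1) (hsl : slope f s a = μ) (hd : 0 ≤ disc a) :
    (a.1 : ℝ) ≤ degHom f s μ a ∧
      2 * (a.2.2 : ℝ) - 2 * a.1 - dot a.2.1 fib ≤ μ ^ 2 / (2 * s * (1 - s) * dot f fib) * a.1 := by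
  have hrR : (0 : ℝ) < a.1 := by exact_mod_cast hr
  have hfF' : (0 : ℝ) < dot f fib := by exact_mod_cast hfF
  have hJ : 0 < 2 * s * (1 - s) * dot f fib := by
    have : 0 < 1 - s := by linarith
    positivity
  have hJ' := polv_sq f hf s
  have hlt : ∑ i : Fin 9, polv f s i.succ ^ 2 < polv f s 0 ^ 2 := by linarith
  have hh := hodge hlt (a.2.1 0 : ℝ) (fun i : Fin 9 => (a.2.1 i.succ : ℝ))
  rw [hJ', ← sq_eq, ← pol_eq] at hh
  have hpol : pol f s a.2.1 = μ * a.1 := by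
    rw [← hsl, slope, div_mul_cancel₀ _ hrR.ne']
  rw [hpol] at hh
  have hd' : (0 : ℝ) ≤ dot a.2.1 a.2.1 - a.1 * (2 * a.2.2 - 2 * a.1 - dot a.2.1 fib) := by
    have : (0 : ℝ) ≤ ((disc a : ℤ) : ℝ) := by exact_mod_cast hd
    unfold disc at this
    push_cast at this
    exact this
  have h1 : 2 * (a.2.2 : ℝ) - 2 * a.1 - dot a.2.1 fib ≤
      μ ^ 2 / (2 * s * (1 - s) * dot f fib) * a.1 := by
    rw [div_mul_eq_mul_div, le_div_iff₀ hJ]
    by_contra hc
    push Not at hc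
    have h2 : μ ^ 2 * a.1 * a.1 <
        (2 * (a.2.2 : ℝ) - 2 * a.1 - dot a.2.1 fib) * (2 * s * (1 - s) * dot f fib) * a.1 :=
      mul_lt_mul_of_pos_right hc hrR
    have h3 : (2 * s * (1 - s) * dot f fib) * (a.1 * (2 * (a.2.2 : ℝ) - 2 * a.1 - dot a.2.1 fib)) ≤
        (2 * s * (1 - s) * dot f fib) * dot a.2.1 a.2.1 :=
      mul_le_mul_of_nonneg_left (by linarith) hJ.le
    nlinarith
  refine ⟨?_, h1⟩
  rw [degHom_apply]
  nlinarith

lemma degree_finite {f : Pic} (hf : dot f f = 0) (hfF : 0 < dot f fib) {s : ℝ} (μ : ℝ)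
    (hs0 : 0 < s) (hs1 : s < 1) (A : ℝ) :
    {a : Cl | 0 < a.1 ∧ slope f s a = μ ∧ 0 ≤ disc a ∧ degHom f s μ a ≤ A}.Finite := by
  have hfF' : (0 : ℝ) < dot f fib := by exact_mod_cast hfF
  have hJ : 0 < 2 * s * (1 - s) * dot f fib := by
    have : 0 < 1 - s := by linarith
    positivity
  have hJ' := polv_sq f hf s
  have hlt : ∑ i : Fin 9, polv f s i.succ ^ 2 < polv f s 0 ^ 2 := by linarith
  set Jq := 2 * s * (1 - s) * dot f fib with hJq
  -- the divisor classes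
  have hfinD := finite_vectors (polv f s 0) (fun i : Fin 9 => polv f s i.succ) hlt (|μ| * |A|)
    (|A| * |A|)
  set S := {D : Fin (9 + 1) → ℤ | |(D 0 : ℝ) * polv f s 0 -
    ∑ i : Fin 9, (D i.succ : ℝ) * polv f s i.succ| ≤ |μ| * |A| ∧
      -(|A| * |A|) ≤ (D 0 : ℝ) ^ 2 - ∑ i : Fin 9, (D i.succ : ℝ) ^ 2} with hS
  -- bound for the Euler characteristics
  have hbig : ∀ D ∈ S, {n : ℤ | -(|A| + |(dot D fib : ℝ)|) ≤ 2 * (n : ℝ) ∧
      2 * (n : ℝ) ≤ (μ ^ 2 / Jq + 2) * |A| + |(dot D fib : ℝ)|}.Finite := by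
    intro D _
    refine (Set.finite_Icc (-⌈|A| + |(dot D fib : ℝ)|⌉)
      ⌈(μ ^ 2 / Jq + 2) * |A| + |(dot D fib : ℝ)|⌉).subset ?_
    rintro n ⟨h1, h2⟩
    have hA : 0 ≤ |A| + |(dot D fib : ℝ)| := by positivity
    have hB : 0 ≤ (μ ^ 2 / Jq + 2) * |A| + |(dot D fib : ℝ)| := by positivity
    constructor
    · have h3 : -(⌈|A| + |(dot D fib : ℝ)|⌉ : ℝ) ≤ n := by
        have := Int.le_ceil (|A| + |(dot D fib : ℝ)|)
        linarith
      exact_mod_cast h3
    · have h3 : (n : ℝ) ≤ ⌈(μ ^ 2 / Jq + 2) * |A| + |(dot D fib : ℝ)|⌉ := by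
        have := Int.le_ceil ((μ ^ 2 / Jq + 2) * |A| + |(dot D fib : ℝ)|)
        linarith
      exact_mod_cast h3
  have hfin1 : (⋃ D ∈ S, (fun n : ℤ => (D, n)) '' {n : ℤ | -(|A| + |(dot D fib : ℝ)|) ≤ 2 * (n : ℝ) ∧
      2 * (n : ℝ) ≤ (μ ^ 2 / Jq + 2) * |A| + |(dot D fib : ℝ)|}).Finite :=
    hfinD.biUnion fun D hD => (hbig D hD).image _
  refine ((Set.finite_Icc (0 : ℤ) ⌈|A|⌉).prod hfin1).subset ?_
  rintro ⟨r, D, n⟩ ⟨hr, hsl, hd, hA⟩
  simp only [] at hr
  obtain ⟨h1, h2⟩ := degree_bounds hf hfF hs0 hs1 (a := (r, D, n)) hr hsl hd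
  simp only [] at h1 h2
  have hrR : (0 : ℝ) < r := by exact_mod_cast hr
  have hrA : (r : ℝ) ≤ |A| := (h1.trans hA).trans (le_abs_self A)
  have hμJ : 0 ≤ μ ^ 2 / Jq := by positivity
  have hpol : pol f s D = μ * r := by
    rw [← hsl, slope, div_mul_cancel₀ _ hrR.ne']
  rw [degHom_apply, ← hJq] at hA
  simp only [] at hA
  rw [← hJq] at h2
  have hdabs := le_abs_self (dot D fib : ℝ)
  have hdabs' := neg_abs_le (dot D fib : ℝ)
  have hAabs := le_abs_self A
  have hnlow : -|A| ≤ 2 * (n : ℝ) - 2 * r - dot D fib := by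
    have : 0 ≤ (2 + μ ^ 2 / Jq) * r := by positivity
    nlinarith
  have hD : D ∈ S := by
    refine ⟨?_, ?_⟩
    · rw [← pol_eq, hpol, abs_mul, abs_of_pos hrR]
      exact mul_le_mul_of_nonneg_left hrA (abs_nonneg _)
    · rw [← sq_eq]
      have hd' : (0 : ℝ) ≤ dot D D - r * (2 * n - 2 * r - dot D fib) := by
        have : (0 : ℝ) ≤ ((disc (r, D, n) : ℤ) : ℝ) := by exact_mod_cast hd
        unfold disc at this
        push_cast at this
        exact this
      have h3 : (r : ℝ) * (-|A|) ≤ r * (2 * n - 2 * r - dot D fib) :=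
        mul_le_mul_of_nonneg_left hnlow hrR.le
      have h4 : (r : ℝ) * |A| ≤ |A| * |A| := mul_le_mul_of_nonneg_right hrA (abs_nonneg _)
      linarith
  refine ⟨⟨hr.le, ?_⟩, ?_⟩
  · have := hrA.trans (Int.le_ceil |A|)
    exact_mod_cast this
  · refine Set.mem_biUnion hD ⟨n, ⟨?_, ?_⟩, rfl⟩
    · linarith
    · have h3 : (μ ^ 2 / Jq) * (r : ℝ) ≤ (μ ^ 2 / Jq) * |A| := mul_le_mul_of_nonneg_left hrA hμJ
      have h4 : (μ ^ 2 / Jq + 2) * |A| = μ ^ 2 / Jq * |A| + 2 * |A| := by ring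
      rw [h4]
      linarith

end Pool.Agent.H73.WC
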