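import Pool.Agent.H73.WC.Core
import Pool.Agent.H73.WC.Lat
import Pool.Agent.H73.P2.Val

/-!
Orders at a point `η` of the coefficients given by integral invariants, and the closure property.
-/

set_option autoImplicit false

open Polynomial Finset

namespace Pool.Agent.H73.WC

open Pool.Agent.H73.P2 (K t Kf ι mul_mem_Kf Kf_mono lam_mem lam_mem_one tpow_mem rayCoeff
  rayCoeff_mem ι_mem t_ne_zero eval_eq_zero)

section closure

variable {Γ : Type*} [AddCommGroup Γ]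

/-- `ℓ` divides `a` -/
def Dv (ℓ : ℕ) (a : Γ) : Prop := ∃ c : Γ, ℓ • c = a

lemma Dv.add {ℓ : ℕ} {a b : Γ} (ha : Dv ℓ a) (hb : Dv ℓ b) : Dv ℓ (a + b) := by
  obtain ⟨c, rfl⟩ := ha
  obtain ⟨d, rfl⟩ := hb
  exact ⟨c + d, nsmul_add _ _ _⟩

lemma Dv.neg {ℓ : ℕ} {a : Γ} (ha : Dv ℓ a) : Dv ℓ (-a) := by
  obtain ⟨c, rfl⟩ := ha
  exact ⟨-c, neg_nsmul _ _⟩

lemma Dv.sub {ℓ : ℕ} {a b : Γ} (ha : Dv ℓ a) (hb : Dv ℓ b) : Dv ℓ (a - b) := by
  rw [sub_eq_add_neg]; exact ha.add hb.neg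

/-- the prescribed order of the coefficient of the class `a` -/
noncomputable def typ (ℓ : ℕ) (γ a : Γ) : ℤ :=
  open Classical in if Dv ℓ a then -1 else if Dv ℓ (a - γ) then 1 else 0

lemma typ_add {ℓ : ℕ} {γ : Γ} (B : Γ →+ Γ →+ ℤ) (alt : ∀ a, B a a = 0)
    (hγ : ∀ a, (ℓ : ℤ) ∣ B a γ) (a b : Γ) :
    (typ ℓ γ (a + b) ≤ typ ℓ γ a + typ ℓ γ b) ∨
      ((ℓ : ℤ) ∣ B a b ∧ typ ℓ γ (a + b) ≤ typ ℓ γ a + typ ℓ γ b + 1) := by
  classical
  have hdl : ∀ a b : Γ, Dv ℓ a → (ℓ : ℤ) ∣ B a b := by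
    rintro a b ⟨c, rfl⟩
    rw [map_nsmul, AddMonoidHom.nsmul_apply, nsmul_eq_mul]
    exact dvd_mul_right _ _
  have hdr : ∀ a b : Γ, Dv ℓ b → (ℓ : ℤ) ∣ B a b := by
    rintro a b ⟨c, rfl⟩
    rw [map_nsmul, nsmul_eq_mul]
    exact dvd_mul_right _ _
  have hshift : ∀ a b : Γ, Dv ℓ a → typ ℓ γ (a + b) = typ ℓ γ b := by
    intro a b ha
    have e1 : Dv ℓ (a + b) ↔ Dv ℓ b := by
      constructor
      · intro h
        have := h.sub ha
        rwa [add_sub_cancel_left] at this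
      · intro h; exact ha.add h
    have e2 : Dv ℓ (a + b - γ) ↔ Dv ℓ (b - γ) := by
      constructor
      · intro h
        have := h.sub ha
        rwa [show a + b - γ - a = b - γ by abel] at this
      · intro h
        have := ha.add h
        rwa [show a + (b - γ) = a + b - γ by abel] at this
    exact if_congr e1 rfl (if_congr e2 rfl rfl)
  by_cases ha : Dv ℓ a
  · right
    refine ⟨hdl a b ha, ?_⟩
    have ta : typ ℓ γ a = -1 := if_pos ha
    rw [ta, hshift a b ha]; linarith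
  by_cases hb : Dv ℓ b
  · right
    refine ⟨hdr a b hb, ?_⟩
    have tb : typ ℓ γ b = -1 := if_pos hb
    rw [tb, add_comm a b, hshift b a hb]; linarith
  have ta : typ ℓ γ a = if Dv ℓ (a - γ) then 1 else 0 := if_neg ha
  have tb : typ ℓ γ b = if Dv ℓ (b - γ) then 1 else 0 := if_neg hb
  have ta0 : 0 ≤ typ ℓ γ a := by rw [ta]; split_ifs <;> norm_num
  have tb0 : 0 ≤ typ ℓ γ b := by rw [tb]; split_ifs <;> norm_num
  by_cases hab : Dv ℓ (a + b - γ)
  · -- then the pairing is divisible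
    right
    have h1 : (ℓ : ℤ) ∣ B a b := by
      have h2 := hdr a _ hab
      have h3 : B a (a + b - γ) = B a b - B a γ := by
        rw [map_sub, map_add, alt, zero_add]
      rw [h3] at h2
      exact (dvd_sub_left (hγ a)).1 h2
    refine ⟨h1, ?_⟩
    have : typ ℓ γ (a + b) ≤ 1 := by unfold typ; split_ifs <;> norm_num
    linarith
  · left
    have : typ ℓ γ (a + b) ≤ 0 := by
      unfold typ
      rw [if_neg hab]
      split_ifs <;> norm_num
    linarith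

/-- closure of the filtration -/
lemma closed {ℓ : ℕ} {γ : Γ} (B : Γ →+ Γ →+ ℤ) (alt : ∀ a, B a a = 0)
    (hγ : ∀ a, (ℓ : ℤ) ∣ B a γ) {η : ℂ} (hη : η ≠ 0)
    (hℓ : ∀ n : ℤ, (ℓ : ℤ) ∣ n → η ^ (2 * n) = 1) (a b : Γ) :
    ∀ c ∈ Kf η (typ ℓ γ a), ∀ c' ∈ Kf η (typ ℓ γ b),
      c * c' * (t ^ (B a b) - t ^ (-B a b)) ∈ Kf η (typ ℓ γ (a + b)) := by
  intro c hc c' hc'
  rcases typ_add B alt hγ a b with h | ⟨hd, h⟩
  · have h1 := mul_mem_Kf (mul_mem_Kf hc hc') (lam_mem hη (B a b))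
    refine Kf_mono ?_ h1
    linarith
  · have h1 := mul_mem_Kf (mul_mem_Kf hc hc') (lam_mem_one hη (hℓ _ hd))
    exact Kf_mono h h1

end closure

/-- The self-pairing `χ(a, a) = r² - Δ(a)`. -/
def self (a : Cl) : ℤ := a.1 ^ 2 - disc a

/-- the class `a / k` -/
def quot (k : ℕ) (a : Cl) : Cl := (a.1 / k, fun i => a.2.1 i / k, a.2.2 / k)

/-- The coefficient of `z^a` in the logarithm of the generating function of the stacks, in terms of the
intersection cohomology Poincaré polynomials `P b`: the sum over all `k b = a` of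
`(-1)^((k - 1) χ(b, b)) / k · t^(k (χ(b, b) - 1)) · P_b(t^(2 k)) / (t^k - t^(-k))`. -/
noncomputable def ham (P : Cl → ℤ[X]) (a : Cl) : K :=
  ∑ k ∈ a.1.natAbs.divisors.filter (fun k => k • quot k a = a),
    (-1) ^ (((k : ℤ) - 1) * self (quot k a)) / k * t ^ ((k : ℤ) * (self (quot k a) - 1)) *
      aeval (t ^ (2 * k)) (P (quot k a)) / (t ^ k - (t ^ k)⁻¹)

lemma one_mem (η : ℂ) : (1 : K) ∈ Kf η 0 := by
  have := ι_mem (η := η) 1
  rwa [map_one] at this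

lemma aeval_mem {η : ℂ} (hη : η ≠ 0) (k : ℕ) (p : ℤ[X]) : aeval (t ^ k) p ∈ Kf η 0 := by
  rw [aeval_eq_sum_range]
  refine Submodule.sum_mem _ fun i _ => ?_
  rw [Algebra.smul_def, eq_intCast, ← pow_mul]
  have h1 := tpow_mem hη ((k * i : ℕ) : ℤ)
  rw [zpow_natCast] at h1
  have h2 : ((p.coeff i : ℤ) : K) * t ^ (k * i) = ((p.coeff i : ℤ) : ℂ) • t ^ (k * i) := by
    rw [Algebra.smul_def]
    simp
  rw [h2]
  exact Submodule.smul_mem _ _ h1

/-- order of one term -/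
lemma term_mem {η : ℂ} (hη : η ≠ 0) {k : ℕ} (hk : 0 < k) (e m : ℤ) (p : ℤ[X]) {j : ℤ}
    (hj : rayCoeff k ∈ Kf η j) :
    (-1) ^ e / (k : K) * t ^ m * aeval (t ^ (2 * k)) p / (t ^ k - (t ^ k)⁻¹) ∈ Kf η j := by
  have hkK : ((k : ℕ) : K) ≠ 0 := by
    have h1 : ((k : ℕ) : ℂ) ≠ 0 := by exact_mod_cast hk.ne'
    have h2 : ((k : ℕ) : K) = algebraMap ℂ K (k : ℂ) := by simp
    rw [h2]
    exact (_root_.map_ne_zero _).2 h1
  have e1 : (-1 : K) ^ e / (k : K) * t ^ m * aeval (t ^ (2 * k)) p / (t ^ k - (t ^ k)⁻¹) =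
      ((-1) ^ e * (-1) ^ (k + 1)) * (rayCoeff k * (t ^ m * aeval (t ^ (2 * k)) p)) := by
    unfold rayCoeff
    have h3 : ((-1 : K) ^ (k + 1)) * (-1) ^ (k + 1) = 1 := by
      rw [← mul_pow]; simp
    calc (-1 : K) ^ e / (k : K) * t ^ m * aeval (t ^ (2 * k)) p / (t ^ k - (t ^ k)⁻¹)
        = ((-1) ^ e * ((-1 : K) ^ (k + 1) * (-1) ^ (k + 1))) *
            (1 / ((k : K) * (t ^ k - (t ^ k)⁻¹)) * (t ^ m * aeval (t ^ (2 * k)) p)) := by
          rw [h3, mul_one, div_mul_eq_div_div]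
          ring
      _ = _ := by ring
  rw [e1]
  have h4 := mul_mem_Kf hj (mul_mem_Kf (tpow_mem hη m) (aeval_mem hη (2 * k) p))
  rw [add_zero, add_zero] at h4
  have h5 : ∀ x : K, x ∈ Kf η j → ((-1) ^ e * (-1) ^ (k + 1)) * x ∈ Kf η j := by
    intro x hx
    have h6 : ((-1 : K) ^ e * (-1) ^ (k + 1)) = 1 ∨ ((-1 : K) ^ e * (-1) ^ (k + 1)) = -1 := by
      rcases neg_one_pow_eq_or K (k + 1) with h | h <;>
        rcases Int.even_or_odd e with h' | h' <;>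
          simp [h, h'.neg_one_zpow]
    rcases h6 with h | h
    · rw [h, one_mul]; exact hx
    · rw [h, neg_one_mul]; exact (Kf η j).neg_mem hx
  exact h5 _ h4

/-- order of the coefficients: at least `-1`, and at least `0` if `ℓ` does not divide the class -/
lemma ham_mem {η : ℂ} (hη : η ≠ 0) {ℓ : ℕ} (hℓ : ∀ k : ℕ, η ^ (2 * k) = 1 → ℓ ∣ k)
    (P : Cl → ℤ[X]) {a : Cl} (ha : 0 < a.1) :
    ham P a ∈ Kf η (-1) ∧ (¬ Dv ℓ a → ham P a ∈ Kf η 0) := by
  have hk : ∀ k ∈ a.1.natAbs.divisors.filter (fun k => k • quot k a = a), 0 < k := by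
    intro k hk
    rw [mem_filter, Nat.mem_divisors] at hk
    exact Nat.pos_of_dvd_of_pos hk.1.1 (by omega)
  constructor
  · refine Submodule.sum_mem _ fun k hk' => ?_
    exact term_mem hη (hk k hk') _ _ _ (rayCoeff_mem (hk k hk') hη).1
  · intro hnd
    refine Submodule.sum_mem _ fun k hk' => ?_
    refine term_mem hη (hk k hk') _ _ _ ((rayCoeff_mem (hk k hk') hη).2 ?_)
    intro h1
    apply hnd
    obtain ⟨m, hm⟩ := hℓ k h1
    rw [mem_filter] at hk'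
    refine ⟨m • quot k a, ?_⟩
    rw [← mul_nsmul, mul_comm, ← hm]
    exact hk'.2

/-- vanishing of the coefficient -/
lemma ham_eq_zero {P : Cl → ℤ[X]} {a : Cl}
    (h : ∀ k : ℕ, 0 < k → k • quot k a = a → P (quot k a) = 0) : ham P a = 0 := by
  unfold ham
  by_cases ha : a.1 = 0
  · rw [ha]; simp
  refine Finset.sum_eq_zero fun k hk => ?_
  rw [mem_filter, Nat.mem_divisors] at hk
  rw [h k (Nat.pos_of_dvd_of_pos hk.1.1 (by omega)) hk.2]
  simp

/-- the coefficient of a primitive class -/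
lemma ham_primitive {P : Cl → ℤ[X]} {a : Cl} (ha : 0 < a.1)
    (h : ∀ k : ℕ, 0 < k → k • quot k a = a → k = 1) :
    ham P a = t ^ (self a - 1) * aeval (t ^ 2) (P a) / (t - t⁻¹) := by
  have hq : quot 1 a = a := by
    unfold quot
    simp
  unfold ham
  rw [Finset.sum_eq_single 1]
  · rw [hq]
    simp
  · intro k hk hk1
    rw [mem_filter, Nat.mem_divisors] at hk
    exact absurd (h k (Nat.pos_of_dvd_of_pos hk.1.1 (by omega)) hk.2) hk1
  · intro h1
    exfalso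
    apply h1
    rw [mem_filter, Nat.mem_divisors]
    refine ⟨⟨one_dvd _, by omega⟩, ?_⟩
    rw [hq, one_nsmul]

end Pool.Agent.H73.WC
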